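import Mathlib
import Pool.Agent.Helper543.Erg.Final

set_option autoImplicit false
open MeasureTheory

namespace Pool.Agent.Results.MP_335725_an.InfiniteIndex

/-- There is an invertible measure preserving map `T` of a standard, sigma-finite, non-atomic,
infinite measure space such that every finite Cartesian power of `T` is ergodic, but the product
of `T` with its inverse is not ergodic. -/
theorem result :
    ∃ (X : Type) (_ : MeasurableSpace X) (_ : StandardBorelSpace X)
      (μ : Measure X) (_ : SigmaFinite μ) (_ : NullSingletonClass μ) (T : X ≃ᵐ X),
      μ Set.univ = ⊤ ∧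
      MeasurePreserving (T : X → X) μ μ ∧
      (∀ k : ℕ, 1 ≤ k →
        Ergodic (fun x : Fin k → X => fun i => T (x i))
          (Measure.pi (fun _ : Fin k => μ))) ∧
      ¬ Ergodic (fun p : X × X => (T p.1, T.symm p.2)) (μ.prod μ) :=
  Pool.Agent.Helper543.Erg.exists_system

end Pool.Agent.Results.MP_335725_an.InfiniteIndex
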